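import Pool.Agent.Helper50_UNF.Base

set_option autoImplicit false

/-!
# Squad UNF, module DTA: detectors for cliques of type A
-/

namespace Unf.H50

open Art

theorem FS_eq {S : Type} {K N : ℕ} (e : S × Fin K ≃ Fin N) (s : S) :
    FS e s = Subgroup.closure (FreeGroup.of ''
        ({x : Xg N | ∃ i, i ∉ {i | (e.symm i).1 = s} ∧ (x = Sum.inr i ∨ ∃ j, x = Sum.inl (i, j))})) :=
  rfl

theorem filter_singleton {α : Type} (l : List α) (hl : l.Nodup) (p : α → Prop) [DecidablePred p]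
    (a : α) (ha : a ∈ l) (h : ∀ b, p b ↔ b = a) : l.filter (fun b => p b) = [a] := by
  induction l with
  | nil => simp at ha
  | cons b l ih =>
    rw [List.nodup_cons] at hl
    rw [List.filter_cons]
    by_cases hb : p b
    · have hba := (h b).1 hb
      subst hba
      rw [if_pos (by simpa using hb)]
      congr 1
      rw [List.filter_eq_nil_iff]
      intro c hc hpc
      have := (h c).1 (by simpa using hpc)
      subst this
      exact hl.1 hc
    · rw [if_neg (by simpa using hb)]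
      refine ih hl.2 ?_
      rcases List.mem_cons.1 ha with h1 | h1
      · exact absurd ((h b).2 h1.symm) hb
      · exact h1

theorem dta (htwi : TwiStmt) (hthk : ThkStmt) (hgeo : GeoStmt) (hloc : LocStmt) (hgev : GevStmt)
    (hhta : HtaStmt) (hoac : OacStmt) : DtaStmt := by
  classical
  intro S _ M C n ⟨σ, hσ⟩
  obtain ⟨K, hK0, hK6, hK⟩ := exists_K M
  have hK2 : 2 ≤ K := by
    have := Nat.le_of_dvd hK0 hK6
    omega
  -- the generators of the clique
  let r : Fin n → S := fun i => (σ.symm i).1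
  have hrC : ∀ i, r i ∈ C := fun i => (σ.symm i).2
  have hr : Function.Injective r := fun i j h => σ.symm.injective (Subtype.ext h)
  have hrs : ∀ s ∈ C, ∃ i, r i = s := fun s hs => ⟨σ ⟨s, hs⟩, by
    show (σ.symm (σ ⟨s, hs⟩)).1 = s
    rw [Equiv.symm_apply_apply]⟩
  have hM : ∀ i j, M.M (r i) (r j) = (CoxeterMatrix.A n).M i j := by
    intro i j
    have h := hσ (σ.symm i) (σ.symm j)
    rw [Equiv.apply_symm_apply, Equiv.apply_symm_apply] at h
    exact h
  -- the path
  let z : Fin n → S × Fin K := fun i => (r i, ⟨i.1 % 2, by omega⟩)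
  have hz : Function.Injective z := fun i j h => hr (congrArg Prod.fst h)
  have hpath : ∀ i j, Adj M K (z i) (z j) ↔ (i.1 + 1 = j.1 ∨ j.1 + 1 = i.1) := by
    intro i j
    constructor
    · rintro ⟨h1, h2, h3, h4⟩
      by_contra hc
      have h0 : i ≠ j := fun h => h1 (by rw [h])
      have h5 : M.M (z i).1 (z j).1 = 2 := (hM i j).trans (A_far h0 hc)
      rw [h5] at h4
      simp only [Nat.add_one_sub_one, Nat.div_one] at h4
      omega
    · intro h
      have h0 : i ≠ j := by rintro rfl; omega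
      have h5 : M.M (z i).1 (z j).1 = 3 := (hM i j).trans (A_adj h)
      refine ⟨fun h' => h0 (hr h'), by rw [h5]; norm_num, ?_, ?_⟩
      · show i.1 % 2 + 1 = j.1 % 2 ∨ j.1 % 2 + 1 = i.1 % 2
        omega
      · rw [h5]
        show i.1 % 2 / (3 - 1) = j.1 % 2 / (3 - 1)
        omega
  obtain ⟨N, hn, e, T, θ, Φ, he, hT, hc, hθ, hP⟩ := data htwi hthk M K hK n z hz hpath
  have he' : ∀ i, e.symm (Fin.castLE hn i) = z i := fun i => by
    rw [← he, Equiv.symm_apply_apply]
  obtain ⟨Ψ, hΨ⟩ := hoac n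
  -- the inclusion of the clique
  obtain ⟨κ, hκ⟩ := Art.lift (CoxeterMatrix.A n) (fun i => gen M (r i)) (fun i j h => by
    have h1 := Art.relHolds M (r i) (r j) (by rw [hM]; exact h)
    rw [hM] at h1
    exact h1)
  have hlocal : ∀ (a : Gp (CoxeterMatrix.A n)) (i : Fin n),
      θ (κ a) (hg (Fin.castLE hn i)) = Φ a (hg (Fin.castLE hn i)) := by
    intro a i
    refine hloc M (CoxeterMatrix.A n) r K N n hn e T θ Φ κ (MonoidHom.id _) hP hc hθ hκ ?_ ?_ a i
    · intro j
      rw [filter_singleton (List.finRange n) (List.nodup_finRange n) _ j (List.mem_finRange j)]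
      · simp
      · intro b
        rw [he']
        exact ⟨fun h => hr h, fun h => by rw [h]⟩
    · rintro j ⟨y1, y2⟩ hy hy' i hadj
      simp only at hy
      subst hy
      rw [he'] at hadj
      have h0 := hy' j
      rw [he'] at h0
      obtain ⟨h1, h2, h3, h4⟩ := hadj
      have hij : j ≠ i := fun h => h1 (by rw [h])
      have h6 : y2.1 ≠ j.1 % 2 := fun h => h0 (by
        show (r j, y2) = (r j, _)
        rw [Prod.mk.injEq]
        exact ⟨rfl, Fin.ext h⟩)
      have h3' : y2.1 + 1 = i.1 % 2 ∨ i.1 % 2 + 1 = y2.1 := h3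
      by_cases ha : j.1 + 1 = i.1 ∨ i.1 + 1 = j.1
      · have h5 : M.M (r j) (r i) = 3 := (hM j i).trans (A_adj ha)
        have h4' : y2.1 / (M.M (r j) (r i) - 1) = i.1 % 2 / (M.M (r j) (r i) - 1) := h4
        rw [h5] at h4'
        omega
      · have h5 : M.M (r j) (r i) = 2 := (hM j i).trans (A_far hij ha)
        have h4' : y2.1 / (M.M (r j) (r i) - 1) = i.1 % 2 / (M.M (r j) (r i) - 1) := h4
        rw [h5] at h4'
        simp only [Nat.add_one_sub_one, Nat.div_one] at h4'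
        omega
  -- one copy of every generator
  have hcopy : ∀ i : Fin n, Fin.castLE hn i = e (r i, ⟨i.1 % 2, by omega⟩) := fun i => (he i).symm
  -- the double cosets, first case
  have key : ∀ (i j : Fin n), i < j → ∀ a : Gp (CoxeterMatrix.A n),
      (∀ u, θ (κ a) (hg (e (r j, u))) ∈ FS e (r i)) →
      ∃ b ∈ P (CoxeterMatrix.A n) {k | i < k}, ∃ c ∈ P (CoxeterMatrix.A n) {k | k < j},
        a = b * c := by
    intro i j hij a ha
    have h1 := ha ⟨j.1 % 2, by omega⟩
    rw [← hcopy, hlocal, FS_eq] at h1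
    have h2 := (hgev N n hn _ T Φ hP Ψ hΨ).2 a (Fin.castLE hn j) (i.1 + 1) n
      {l | (e.symm l).1 = r i} (by exact hij) (by exact j.2) le_rfl
      (Or.inr ⟨Fin.castLE hn i, by rw [Set.mem_ofPred_eq, he'], rfl⟩) (Or.inl rfl) h1
    refine (hhta n Ψ hΨ).2.1 i j hij a ?_
    have h3 : (pre (n + 1) (i.1 + 1))⁻¹ * Ψ a (pre (n + 1) (j.1 + 1)) =
        ((pre (n + 1) (i.1 + 1))⁻¹ * pre (n + 1) (j.1 + 1)) *
          ((pre (n + 1) (j.1 + 1))⁻¹ * Ψ a (pre (n + 1) (j.1 + 1))) := by group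
    rw [h3]
    refine Subgroup.mul_mem _ ?_ ?_
    · refine Subgroup.closure_mono ?_ (pre_mul (n + 1) (i.1 + 1) (j.1 + 1)
        (by have : i.1 < j.1 := hij; omega))
      rintro y ⟨l, h4, h5, rfl⟩
      exact ⟨l, h4, rfl⟩
    · refine Subgroup.closure_mono ?_ h2
      rintro y ⟨l, h4, h5, rfl⟩
      exact ⟨l, h4, rfl⟩
  refine hgeo M C K N e T θ hT hθ ?_ ?_
  · intro s hs a ha h
    obtain ⟨i, rfl⟩ := hrs s hs
    obtain ⟨a, rfl⟩ := surj_P κ r hκ C hrs ha
    have h1 := h ⟨i.1 % 2, by omega⟩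
    rw [← hcopy, hlocal] at h1
    have h2 := (hgev N n hn _ T Φ hP Ψ hΨ).1 a (Fin.castLE hn i) (by exact i.2) h1
    have h3 := (hhta n Ψ hΨ).1 {i} a (fun k hk => by
      rw [Set.mem_singleton_iff] at hk
      rw [hk]
      exact h2)
    refine map_P κ r hκ _ _ ?_ h3
    intro j hj
    exact ⟨hrC j, fun h' => hj (by rw [Set.mem_singleton_iff]; exact hr h')⟩
  · intro s hs t ht hst a ha h h'
    obtain ⟨i, rfl⟩ := hrs s hs
    obtain ⟨j, rfl⟩ := hrs t ht
    obtain ⟨a, rfl⟩ := surj_P κ r hκ C hrs ha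
    have hij : i ≠ j := fun h0 => hst (by rw [h0])
    rcases lt_or_gt_of_ne hij with hlt | hlt
    · obtain ⟨b, hb, c, hc', rfl⟩ := key i j hlt a h
      refine ⟨κ b, map_P κ r hκ _ _ ?_ hb, κ c, map_P κ r hκ _ _ ?_ hc', map_mul κ b c⟩
      · intro k hk
        exact ⟨hrC k, fun h0 => (ne_of_gt hk) (hr h0)⟩
      · intro k hk
        exact ⟨hrC k, fun h0 => (ne_of_lt hk) (hr h0)⟩
    · obtain ⟨b, hb, c, hc', he2⟩ := key j i hlt a⁻¹ (by
        intro u
        rw [map_inv, map_inv]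
        exact h' u)
      refine ⟨κ c⁻¹, map_P κ r hκ {k | k < i} _ ?_ (inv_mem hc'), κ b⁻¹,
        map_P κ r hκ {k | j < k} _ ?_ (inv_mem hb), ?_⟩
      · intro k hk
        exact ⟨hrC k, fun h0 => (ne_of_lt hk) (hr h0)⟩
      · intro k hk
        exact ⟨hrC k, fun h0 => (ne_of_gt hk) (hr h0)⟩
      · rw [← map_mul, ← mul_inv_rev, ← he2, inv_inv]

end Unf.H50
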