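import Pool.Agent.Helper50_UNF.DtbA

set_option autoImplicit false

/-!
# Squad UNF, module DTB: detectors for cliques of type B
-/

namespace Unf.H50

open Art

theorem pre_succ {k j : ℕ} (h : j < k) : pre k (j + 1) = pre k j * ox ⟨j, h⟩ := by
  unfold pre wp
  have h1 : (List.finRange k).take (j + 1) = (List.finRange k).take j ++ [⟨j, h⟩] := by
    rw [List.take_add_one, List.getElem?_eq_getElem (by simpa using h), List.getElem_finRange]
    rfl
  rw [h1, List.map_append, List.prod_append]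
  simp

theorem pre_zero (k : ℕ) : pre k 0 = 1 := by
  unfold pre wp
  simp

theorem psi_pre {k l m : ℕ} (ψ : O k →* O l) (h : ∀ (j : ℕ) (h1 : j < k) (h2 : j < l), j < m →
    ψ (ox ⟨j, h1⟩) = ox ⟨j, h2⟩) (hk : m ≤ k) (hl : m ≤ l) : ∀ j ≤ m, ψ (pre k j) = pre l j := by
  intro j
  induction j with
  | zero => intro _; rw [pre_zero, pre_zero, map_one]
  | succ j ih =>
    intro hj
    rw [pre_succ (by omega : j < k), pre_succ (by omega : j < l), map_mul, ih (by omega),
      h j (by omega) (by omega) (by omega)]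

theorem filter_pair {n : ℕ} (p : Fin n → Prop) [DecidablePred p] (a b : Fin n) (hab : a < b)
    (h : ∀ c, p c ↔ c = a ∨ c = b) : (List.finRange n).filter (fun c => p c) = [a, b] := by
  have h1 : ((List.finRange n).filter (fun c => p c)).SortedLT :=
    ((List.sortedLT_finRange n).pairwise.filter _).sortedLT
  have h2 : [a, b].SortedLT := by
    refine List.Pairwise.sortedLT ?_
    simpa using hab
  refine h1.eq_of_mem_iff h2 fun c => ?_
  simp [h c]

theorem pre_mem (k j : ℕ) : pre k j ∈ Subgroup.closure {y : O k | ∃ l : Fin k, l.1 < j ∧ y = ox l} := by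
  have h := pre_mul k 0 j (Nat.zero_le _)
  rw [pre_zero, inv_one, one_mul] at h
  refine Subgroup.closure_mono ?_ h
  rintro y ⟨l, -, h1, rfl⟩
  exact ⟨l, h1, rfl⟩

theorem dtb (htwi : TwiStmt) (hthk : ThkStmt) (hgeo : GeoStmt) (hloc : LocStmt) (hgev : GevStmt)
    (hhta : HtaStmt) (hoac : OacStmt) (hbfd : BfdStmt) (hbst : BstStmt) : DtbStmt := by
  classical
  intro S _ M C n ⟨σ, hσ⟩
  cases n with
  | zero => exact dta htwi hthk hgeo hloc hgev hhta hoac M C 0 ⟨σ, fun s => (σ s).elim0⟩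
  | succ m =>
  obtain ⟨K, hK0, hK6, hK⟩ := exists_K M
  have hK2 : 6 ≤ K := Nat.le_of_dvd hK0 hK6
  -- the generators of the clique
  let r : Fin (m + 1) → S := fun i => (σ.symm i).1
  have hrC : ∀ i, r i ∈ C := fun i => (σ.symm i).2
  have hr : Function.Injective r := fun i j h => σ.symm.injective (Subtype.ext h)
  have hrs : ∀ s ∈ C, ∃ i, r i = s := fun s hs => ⟨σ ⟨s, hs⟩, by
    show (σ.symm (σ ⟨s, hs⟩)).1 = s
    rw [Equiv.symm_apply_apply]⟩
  have hM : ∀ i j, M.M (r i) (r j) = lab m i.1 j.1 := by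
    intro i j
    have h := hσ (σ.symm i) (σ.symm j)
    rw [Equiv.apply_symm_apply, Equiv.apply_symm_apply, B_lab] at h
    exact h
  -- the path
  have hkf : ∀ p : Fin (2 * m + 1), kf m p.1 < m + 1 := fun p => by
    unfold kf; split_ifs <;> omega
  have hcf : ∀ p : Fin (2 * m + 1), cf m p.1 < K := fun p => by
    unfold cf; split_ifs <;> omega
  let z : Fin (2 * m + 1) → S × Fin K := fun p => (r ⟨kf m p.1, hkf p⟩, ⟨cf m p.1, hcf p⟩)
  have hz : Function.Injective z := fun p q h => by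
    have h1 : kf m p.1 = kf m q.1 := congrArg Fin.val (hr (congrArg Prod.fst h))
    have h2 : cf m p.1 = cf m q.1 := congrArg Fin.val (congrArg Prod.snd h)
    have h3 := p.2
    have h4 := q.2
    refine Fin.ext ?_
    unfold kf at h1
    unfold cf at h2
    split_ifs at h1 h2 <;> omega
  have hpath : ∀ p q, Adj M K (z p) (z q) ↔ (p.1 + 1 = q.1 ∨ q.1 + 1 = p.1) := by
    intro p q
    rw [← path_arith m p.1 q.1 p.2 q.2]
    constructor
    · rintro ⟨h1, h2, h3, h4⟩
      refine ⟨fun h => h1 (congrArg r (Fin.ext h)), h3, ?_⟩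
      have h5 : M.M (z p).1 (z q).1 = lab m (kf m p.1) (kf m q.1) := hM _ _
      rw [h5] at h4
      exact h4
    · rintro ⟨h1, h3, h4⟩
      have h5 : M.M (z p).1 (z q).1 = lab m (kf m p.1) (kf m q.1) := hM _ _
      refine ⟨fun h => h1 (congrArg Fin.val (hr h)), ?_, h3, ?_⟩
      · rw [h5]; exact lab_ne _ _ _
      · rw [h5]; exact h4
  obtain ⟨N, hn, e, T, θ, Φ, he, hT, hc, hθ, hP⟩ := data htwi hthk M K hK (2 * m + 1) z hz hpath
  have he' : ∀ i, e.symm (Fin.castLE hn i) = z i := fun i => by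
    rw [← he, Equiv.symm_apply_apply]
  obtain ⟨Ψ, hΨ⟩ := hoac (m + 1)
  obtain ⟨Ψ', hΨ'⟩ := hoac (2 * m + 1)
  obtain ⟨fold, ψ, hfold, hψ, hfψ⟩ := hbfd m Ψ Ψ' hΨ hΨ'
  obtain ⟨j, hj⟩ := exists_j m
  obtain ⟨q, hq⟩ := exists_perm (m + 1)
  obtain ⟨jinj, hstab, -⟩ := hbst (m + 1) j hj
  have hfψ' := hfψ j hj
  have hlast := fix_last j hj q hq
  -- left copies
  have lm : ∀ k : Fin (m + 1), k.1 < 2 * m + 1 := fun k => by omega
  let lp : Fin (m + 1) → Fin (2 * m + 1) := fun k => ⟨k.1, lm k⟩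
  have zlp : ∀ k, (z (lp k)).1 = r k := fun k => by
    show r ⟨kf m k.1, _⟩ = r k
    congr 1
    refine Fin.ext ?_
    show kf m k.1 = k.1
    unfold kf
    rw [if_pos (by omega)]
  have hkz : ∀ (p : Fin (2 * m + 1)) (k : Fin (m + 1)), (z p).1 = r k ↔ kf m p.1 = k.1 := by
    intro p k
    exact ⟨fun h => congrArg Fin.val (hr h), fun h => congrArg r (Fin.ext h)⟩
  -- the inclusion of the clique
  obtain ⟨κ, hκ⟩ := Art.lift (CoxeterMatrix.B (m + 1)) (fun i => gen M (r i)) (fun i j h => by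
    have h1 := Art.relHolds M (r i) (r j) (by rw [hM, ← B_lab]; exact h)
    rw [hM, ← B_lab] at h1
    exact h1)
  have hlocal : ∀ (a : Gp (CoxeterMatrix.B (m + 1))) (i : Fin (2 * m + 1)),
      θ (κ a) (hg (Fin.castLE hn i)) = Φ (fold a) (hg (Fin.castLE hn i)) := by
    intro a i
    refine hloc M (CoxeterMatrix.B (m + 1)) r K N (2 * m + 1) hn e T θ Φ κ fold hP hc hθ hκ ?_ ?_ a i
    · intro k
      rw [hfold k (lp k) ⟨2 * m - k.1, by omega⟩ rfl (by show 2 * m - k.1 + k.1 = 2 * m; omega)]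
      split_ifs with hk
      · rw [filter_singleton (List.finRange (2 * m + 1)) (List.nodup_finRange _) _ (lp k)
          (List.mem_finRange _)]
        · simp
        · intro b
          rw [he', hkz]
          have hb := b.2
          constructor
          · intro h
            refine Fin.ext ?_
            show b.1 = k.1
            unfold kf at h
            split_ifs at h <;> omega
          · rintro rfl
            show kf m k.1 = k.1
            unfold kf
            rw [if_pos (by omega)]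
      · rw [filter_pair _ (lp k) ⟨2 * m - k.1, by omega⟩ (by
          show k.1 < 2 * m - k.1
          have := k.2
          omega)]
        · simp
        · intro b
          rw [he', hkz]
          have hb := b.2
          have hk2 := k.2
          constructor
          · intro h
            unfold kf at h
            split_ifs at h with h1
            · left
              exact Fin.ext h
            · right
              refine Fin.ext ?_
              show b.1 = 2 * m - k.1
              omega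
          · rintro (rfl | rfl)
            · show kf m k.1 = k.1
              unfold kf
              rw [if_pos (by omega)]
            · show kf m (2 * m - k.1) = k.1
              unfold kf
              rw [if_neg (by omega)]
              omega
    · rintro k ⟨y1, y2⟩ hy hy' p hadj
      simp only at hy
      subst hy
      rw [he'] at hadj
      obtain ⟨h1, h2, h3, h4⟩ := hadj
      have h5 : M.M (r k) (z p).1 = lab m k.1 (kf m p.1) := hM _ _
      have h4' : y2.1 / (M.M (r k) (z p).1 - 1) = cf m p.1 / (M.M (r k) (z p).1 - 1) := h4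
      rw [h5] at h4'
      refine loc_arith m k.1 y2.1 p.1 k.2 p.2 ?_ ?_ h3 h4'
      · intro q' hq' hk' hu
        refine hy' ⟨q', hq'⟩ ?_
        rw [he']
        show (r k, y2) = (r ⟨kf m q', _⟩, ⟨cf m q', _⟩)
        rw [Prod.mk.injEq]
        exact ⟨congrArg r (Fin.ext hk'.symm), Fin.ext hu⟩
      · intro h
        exact h1 (congrArg r (Fin.ext h))
  -- one copy of every generator
  have hcopy : ∀ k : Fin (m + 1), ∃ u, Fin.castLE hn (lp k) = e (r k, u) := fun k =>
    ⟨(z (lp k)).2, by rw [← he, ← zlp k]⟩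
  have hψ' : ∀ (l : ℕ) (h1 : l < 2 * m + 1 + 1) (h2 : l < m + 1 + 1), l < m + 1 →
      ψ (ox ⟨l, h1⟩) = ox ⟨l, h2⟩ := by
    intro l h1 h2 h3
    exact hψ ⟨l, h3⟩ ⟨l, h1⟩ rfl
  have hψpre : ∀ l ≤ m + 1, ψ (pre (2 * m + 1 + 1) l) = pre (m + 1 + 1) l :=
    psi_pre ψ hψ' (by omega) (by omega)
  -- the double cosets
  have key : ∀ (i k : Fin (m + 1)), i < k → ∀ a : Gp (CoxeterMatrix.B (m + 1)),
      (∀ u, θ (κ a) (hg (e (r i, u))) ∈ FS e (r k)) →
      ∃ b ∈ P (CoxeterMatrix.B (m + 1)) {l | l < k}, ∃ c ∈ P (CoxeterMatrix.B (m + 1)) {l | i < l},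
        a = b * c := by
    intro i k hik a ha
    obtain ⟨u, hu⟩ := hcopy i
    have h1 := ha u
    rw [← hu, hlocal, FS_eq] at h1
    have h2 := (hgev N (2 * m + 1) hn _ T Φ hP Ψ' hΨ').2 (fold a) (Fin.castLE hn (lp i)) 0 k.1
      {l | (e.symm l).1 = r k} (Nat.zero_le _) (by exact hik) (by have := k.2; omega)
      (Or.inl rfl)
      (Or.inr ⟨Fin.castLE hn (lp k), by rw [Set.mem_ofPred_eq, he']; exact zlp k, rfl⟩) h1
    have h3 : Ψ' (fold a) (pre (2 * m + 1 + 1) (i.1 + 1)) ∈
        Subgroup.closure {y | ∃ l : Fin (2 * m + 1 + 1), l.1 ≤ k.1 ∧ y = ox l} := by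
      have e1 : Ψ' (fold a) (pre (2 * m + 1 + 1) (i.1 + 1)) = pre (2 * m + 1 + 1) (i.1 + 1) *
        ((pre (2 * m + 1 + 1) (i.1 + 1))⁻¹ * Ψ' (fold a) (pre (2 * m + 1 + 1) (i.1 + 1))) := by
        group
      rw [e1]
      refine Subgroup.mul_mem _ ?_ ?_
      · refine Subgroup.closure_mono ?_ (pre_mem _ _)
        rintro y ⟨l, h4, rfl⟩
        have : i.1 < k.1 := hik
        exact ⟨l, by omega, rfl⟩
      · refine Subgroup.closure_mono ?_ h2
        rintro y ⟨l, -, h4, rfl⟩
        exact ⟨l, h4, rfl⟩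
    have h4 : Ψ (j a) (pre (m + 1 + 1) (i.1 + 1)) ∈
        Subgroup.closure {y | ∃ l : Fin (m + 1 + 1), l.1 ≤ k.1 ∧ y = ox l} := by
      have e1 : Ψ (j a) (pre (m + 1 + 1) (i.1 + 1)) =
          ψ (Ψ' (fold a) (pre (2 * m + 1 + 1) (i.1 + 1))) := by
        rw [← hfψ', hψpre _ (by have := i.2; omega)]
      rw [e1]
      have h5 : Subgroup.closure {y | ∃ l : Fin (2 * m + 1 + 1), l.1 ≤ k.1 ∧ y = ox l} ≤
          (Subgroup.closure {y | ∃ l : Fin (m + 1 + 1), l.1 ≤ k.1 ∧ y = ox l}).comap ψ := by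
        rw [Subgroup.closure_le]
        rintro _ ⟨l, hl, rfl⟩
        have hk2 := k.2
        rw [SetLike.mem_coe, Subgroup.mem_comap]
        have e2 : ψ (ox l) = ox ⟨l.1, by omega⟩ := hψ' l.1 l.2 (by omega) (by omega)
        rw [e2]
        exact Subgroup.subset_closure ⟨_, hl, rfl⟩
      exact h5 h3
    obtain ⟨b, hb, c, hc', hbc⟩ := (hhta (m + 1) Ψ hΨ).2.2 k i hik (j a) h4
    -- the first factor
    have hb' : ∃ b' ∈ P (CoxeterMatrix.B (m + 1)) {l | l < k}, j b' = b := by
      have h5 : P (CoxeterMatrix.A (m + 1)) {l | l < k} ≤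
          (P (CoxeterMatrix.B (m + 1)) {l | l < k}).map j := by
        unfold P
        rw [Subgroup.closure_le]
        rintro _ ⟨l, hl, rfl⟩
        refine ⟨gen _ l, Subgroup.subset_closure ⟨l, hl, rfl⟩, ?_⟩
        rw [hj, if_neg]
        have h6 : l.1 < k.1 := hl
        have := k.2
        omega
      obtain ⟨b', h6, h7⟩ := h5 hb
      exact ⟨b', h6, h7⟩
    obtain ⟨b', hb', rfl⟩ := hb'
    have hc2 : c = j (b'⁻¹ * a) := by
      rw [map_mul, map_inv, hbc]
      group
    obtain ⟨c', hc3, rfl⟩ := hstab q hq {l | i < l} c hc' (by rw [hc2]; exact hlast _)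
    refine ⟨b', hb', c', hc3, jinj ?_⟩
    rw [map_mul]
    exact hbc
  refine hgeo M C K N e T θ hT hθ ?_ ?_
  · intro s hs a ha h
    obtain ⟨i, rfl⟩ := hrs s hs
    obtain ⟨a, rfl⟩ := surj_P κ r hκ C hrs ha
    obtain ⟨u, hu⟩ := hcopy i
    have h1 := h u
    rw [← hu, hlocal] at h1
    have h2 := (hgev N (2 * m + 1) hn _ T Φ hP Ψ' hΨ').1 (fold a) (Fin.castLE hn (lp i))
      (by exact (lp i).2) h1
    have h3 : Ψ (j a) (pre (m + 1 + 1) (i.1 + 1)) = pre (m + 1 + 1) (i.1 + 1) := by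
      have hi2 := i.2
      rw [← hψpre _ (by omega), hfψ']
      exact congrArg ψ h2
    have h4 := (hhta (m + 1) Ψ hΨ).1 {i} (j a) (fun k hk => by
      rw [Set.mem_singleton_iff] at hk
      rw [hk]
      exact h3)
    obtain ⟨b, hb, hb2⟩ := hstab q hq _ (j a) h4 (hlast a)
    rw [← jinj hb2]
    refine map_P κ r hκ _ _ ?_ hb
    intro l hl
    exact ⟨hrC l, fun h' => hl (by rw [Set.mem_singleton_iff]; exact hr h')⟩
  · intro s hs t ht hst a ha h h'
    obtain ⟨i, rfl⟩ := hrs s hs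
    obtain ⟨k, rfl⟩ := hrs t ht
    obtain ⟨a, rfl⟩ := surj_P κ r hκ C hrs ha
    have hik : i ≠ k := fun h0 => hst (by rw [h0])
    rcases lt_or_gt_of_ne hik with hlt | hlt
    · obtain ⟨b, hb, c, hc', he2⟩ := key i k hlt a⁻¹ (by
        intro u
        rw [map_inv, map_inv]
        exact h' u)
      refine ⟨κ c⁻¹, map_P κ r hκ {l | i < l} _ ?_ (inv_mem hc'), κ b⁻¹,
        map_P κ r hκ {l | l < k} _ ?_ (inv_mem hb), ?_⟩
      · intro l hl
        exact ⟨hrC l, fun h0 => (ne_of_gt hl) (hr h0)⟩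
      · intro l hl
        exact ⟨hrC l, fun h0 => (ne_of_lt hl) (hr h0)⟩
      · rw [← map_mul, ← mul_inv_rev, ← he2, inv_inv]
    · obtain ⟨b, hb, c, hc', rfl⟩ := key k i hlt a h
      refine ⟨κ b, map_P κ r hκ _ _ ?_ hb, κ c, map_P κ r hκ _ _ ?_ hc', map_mul κ b c⟩
      · intro l hl
        exact ⟨hrC l, fun h0 => (ne_of_lt hl) (hr h0)⟩
      · intro l hl
        exact ⟨hrC l, fun h0 => (ne_of_gt hl) (hr h0)⟩

end Unf.H50
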