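import Pool.Agent.Helper50_UNF.Dta

set_option autoImplicit false

/-!
# Squad UNF, module DTB: arithmetic of the path, homomorphisms
-/

namespace Unf.H50

open Art

/-- The generator of the position `p` of the path. -/
def kf (m p : ℕ) : ℕ := if p ≤ m then p else 2 * m - p

/-- The copy of the position `p` of the path. -/
def cf (m p : ℕ) : ℕ := if p < m then (m - 1 - p) % 2 else if p = m then 1 else 2 + (p - m - 1) % 2

/-- The labels of type `B`. -/
def lab (m i j : ℕ) : ℕ :=
  if i = j then 1 else if (i = m ∧ j + 1 = m) ∨ (j = m ∧ i + 1 = m) then 4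
    else if j + 1 = i ∨ i + 1 = j then 3 else 2

theorem B_lab {m : ℕ} (i j : Fin (m + 1)) : (CoxeterMatrix.B (m + 1)).M i j = lab m i.1 j.1 := by
  show (if i = j then 1
      else (if (i : ℕ) = m + 1 - 1 ∧ (j : ℕ) = m + 1 - 2 ∨ (j : ℕ) = m + 1 - 1 ∧ (i : ℕ) = m + 1 - 2
        then 4 else (if (j : ℕ) + 1 = i ∨ (i : ℕ) + 1 = j then 3 else 2))) = _
  unfold lab
  by_cases h : i = j
  · rw [if_pos h, if_pos (by rw [h])]
  · have h' : i.1 ≠ j.1 := fun h0 => h (Fin.ext h0)
    rw [if_neg h, if_neg h']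
    by_cases h1 : (i.1 = m ∧ j.1 + 1 = m) ∨ (j.1 = m ∧ i.1 + 1 = m)
    · rw [if_pos h1, if_pos (by omega)]
    · rw [if_neg h1, if_neg (by omega)]

theorem lab_ne (m i j : ℕ) : lab m i j ≠ 0 := by
  unfold lab
  split_ifs <;> norm_num

theorem lab_cases (m i j : ℕ) (h : i ≠ j) :
    (lab m i j = 4 ∧ ((i = m ∧ j + 1 = m) ∨ (j = m ∧ i + 1 = m))) ∨
    (lab m i j = 3 ∧ (j + 1 = i ∨ i + 1 = j) ∧ ¬ ((i = m ∧ j + 1 = m) ∨ (j = m ∧ i + 1 = m))) ∨
    (lab m i j = 2 ∧ ¬ (j + 1 = i ∨ i + 1 = j)) := by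
  unfold lab
  rw [if_neg h]
  by_cases h1 : (i = m ∧ j + 1 = m) ∨ (j = m ∧ i + 1 = m)
  · left
    exact ⟨if_pos h1, h1⟩
  · right
    rw [if_neg h1]
    by_cases h2 : j + 1 = i ∨ i + 1 = j
    · left
      exact ⟨if_pos h2, h2, h1⟩
    · right
      exact ⟨if_neg h2, h2⟩

theorem path_arith (m p q : ℕ) (hp : p < 2 * m + 1) (hq : q < 2 * m + 1) :
    (kf m p ≠ kf m q ∧ (cf m p + 1 = cf m q ∨ cf m q + 1 = cf m p) ∧
      cf m p / (lab m (kf m p) (kf m q) - 1) = cf m q / (lab m (kf m p) (kf m q) - 1)) ↔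
    (p + 1 = q ∨ q + 1 = p) := by
  by_cases h0 : kf m p = kf m q
  · constructor
    · rintro ⟨h, -⟩
      exact absurd h0 h
    · intro h
      unfold kf at h0
      split_ifs at h0 <;> omega
  · rcases lab_cases m _ _ h0 with ⟨h1, h2⟩ | ⟨h1, h2, h3⟩ | ⟨h1, h2⟩
    · rw [h1]
      norm_num
      unfold kf at h0 h2 ⊢
      unfold cf
      split_ifs at h0 h2 ⊢ <;> omega
    · rw [h1]
      norm_num
      unfold kf at h0 h2 h3 ⊢
      unfold cf
      split_ifs at h0 h2 h3 ⊢ <;> omega
    · rw [h1]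
      norm_num
      unfold kf at h0 h2 ⊢
      unfold cf
      split_ifs at h0 h2 ⊢ <;> omega

theorem kf_left {m p : ℕ} (h : p < m) : kf m p = p := by unfold kf; rw [if_pos h.le]

theorem kf_mid (m : ℕ) : kf m m = m := by unfold kf; rw [if_pos le_rfl]

theorem kf_right {m p : ℕ} (h : m < p) : kf m p = 2 * m - p := by
  unfold kf; rw [if_neg (by omega)]

theorem cf_left {m p : ℕ} (h : p < m) : cf m p = (m - 1 - p) % 2 := by unfold cf; rw [if_pos h]

theorem cf_mid (m : ℕ) : cf m m = 1 := by unfold cf; rw [if_neg (by omega), if_pos rfl]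

theorem cf_right {m p : ℕ} (h : m < p) : cf m p = 2 + (p - m - 1) % 2 := by
  unfold cf; rw [if_neg (by omega), if_neg (by omega)]

/-- Copies outside the path are not joined to the path. -/
theorem loc_arith (m j u p : ℕ) (hj : j < m + 1) (hp : p < 2 * m + 1)
    (hu : ∀ q < 2 * m + 1, kf m q = j → u ≠ cf m q)
    (h0 : j ≠ kf m p) (h1 : u + 1 = cf m p ∨ cf m p + 1 = u)
    (h2 : u / (lab m j (kf m p) - 1) = cf m p / (lab m j (kf m p) - 1)) : False := by
  rcases Nat.lt_or_ge j m with hjm | hjm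
  · have a1 := hu j (by omega) (kf_left hjm)
    have a2 := hu (2 * m - j) (by omega) (by rw [kf_right (by omega)]; omega)
    rw [cf_left hjm] at a1
    rw [cf_right (by omega)] at a2
    rcases lt_trichotomy p m with h | h | h
    · rw [kf_left h] at h0 h2
      rw [cf_left h] at h1 h2
      rcases lab_cases m _ _ h0 with ⟨h3, h4⟩ | ⟨h3, h4, h5⟩ | ⟨h3, h4⟩
      · omega
      · rw [h3] at h2
        norm_num at h2
        omega
      · rw [h3] at h2
        norm_num at h2
        omega
    · subst h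
      rw [kf_mid] at h0 h2
      rw [cf_mid] at h1 h2
      rcases lab_cases p _ _ h0 with ⟨h3, h4⟩ | ⟨h3, h4, h5⟩ | ⟨h3, h4⟩
      · omega
      · omega
      · rw [h3] at h2
        norm_num at h2
        omega
    · rw [kf_right h] at h0 h2
      rw [cf_right h] at h1 h2
      rcases lab_cases m _ _ h0 with ⟨h3, h4⟩ | ⟨h3, h4, h5⟩ | ⟨h3, h4⟩
      · omega
      · rw [h3] at h2
        norm_num at h2
        omega
      · rw [h3] at h2
        norm_num at h2
        omega
  · obtain rfl : j = m := by omega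
    have a1 := hu j (by omega) (kf_mid j)
    rw [cf_mid] at a1
    rcases lt_trichotomy p j with h | h | h
    · rw [kf_left h] at h0 h2
      rw [cf_left h] at h1 h2
      rcases lab_cases j _ _ h0 with ⟨h3, h4⟩ | ⟨h3, h4, h5⟩ | ⟨h3, h4⟩
      · rw [h3] at h2
        norm_num at h2
        omega
      · omega
      · rw [h3] at h2
        norm_num at h2
        omega
    · subst h
      exact h0 (kf_mid p).symm
    · rw [kf_right h] at h0 h2
      rw [cf_right h] at h1 h2
      rcases lab_cases j _ _ h0 with ⟨h3, h4⟩ | ⟨h3, h4, h5⟩ | ⟨h3, h4⟩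
      · rw [h3] at h2
        norm_num at h2
        omega
      · omega
      · rw [h3] at h2
        norm_num at h2
        omega

/-! ### Homomorphisms -/

theorem swap_braid {α : Type} [DecidableEq α] {x y z : α} (hxy : x ≠ y) (hxz : x ≠ z)
    (hyz : y ≠ z) : Equiv.swap x y * Equiv.swap y z * Equiv.swap x y =
      Equiv.swap y z * Equiv.swap x y * Equiv.swap y z := by
  rw [Equiv.swap_mul_swap_mul_swap hxy hxz, Equiv.swap_comm x y, Equiv.swap_comm y z,
    Equiv.swap_mul_swap_mul_swap hyz.symm hxz.symm, Equiv.swap_comm]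

/-- The permutation of the points. -/
theorem exists_perm (n : ℕ) : ∃ q : Gp (CoxeterMatrix.A n) →* Equiv.Perm (Fin (n + 1)),
    ∀ i, q (gen _ i) = Equiv.swap i.castSucc i.succ := by
  refine lift_A _ (fun i j h => ?_) (fun i j h0 h => ?_)
  · have e : j.castSucc = i.succ := Fin.ext (by simpa using h.symm)
    have h1 : i.castSucc ≠ i.succ := fun h' => by
      have := congrArg Fin.val h'
      simp at this
    have h2 : i.castSucc ≠ j.succ := fun h' => by
      have := congrArg Fin.val h'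
      simp at this
      omega
    have h3 : i.succ ≠ j.succ := fun h' => by
      have := congrArg Fin.val h'
      simp at this
      omega
    rw [e]
    exact swap_braid h1 h2 h3
  · have h00 : i.1 ≠ j.1 := fun h' => h0 (Fin.ext h')
    refine (Equiv.Perm.disjoint_swap_swap ?_).commute
    simp only [List.nodup_cons, List.mem_cons, List.not_mem_nil, or_false, not_or, Fin.ext_iff,
      Fin.val_castSucc, Fin.val_succ, not_false_eq_true, List.nodup_nil, and_true]
    omega

theorem alt_four {G : Type} [Monoid G] (a b : G) : alt 4 a b = a * b * a * b := by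
  rw [show 4 = 2 * 2 by norm_num, Art.alt_two_mul, pow_two]
  simp only [mul_assoc]

/-- Homomorphisms from the Artin group of type `B`. -/
theorem lift_B {m : ℕ} {G : Type} [Group G] (f : Fin (m + 1) → G)
    (h4 : ∀ i j : Fin (m + 1), i.1 + 1 = j.1 → j.1 = m → f i * f j * f i * f j =
      f j * f i * f j * f i)
    (h3 : ∀ i j : Fin (m + 1), i.1 + 1 = j.1 → j.1 ≠ m → f i * f j * f i = f j * f i * f j)
    (h2 : ∀ i j : Fin (m + 1), i ≠ j → ¬ (i.1 + 1 = j.1 ∨ j.1 + 1 = i.1) → f i * f j = f j * f i) :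
    ∃ Φ : Gp (CoxeterMatrix.B (m + 1)) →* G, ∀ i, Φ (gen _ i) = f i := by
  refine Art.lift _ f fun i j _ => ?_
  rw [B_lab]
  by_cases h0 : i = j
  · rw [h0]
  · have h0' : i.1 ≠ j.1 := fun h => h0 (Fin.ext h)
    rcases lab_cases m i.1 j.1 h0' with ⟨h, h1 | h1⟩ | ⟨h, h1 | h1, h5⟩ | ⟨h, h1⟩
    · rw [h, alt_four, alt_four]
      exact (h4 j i (by omega) h1.1).symm
    · rw [h, alt_four, alt_four]
      exact h4 i j (by omega) h1.1
    · rw [h, alt_three, alt_three]
      exact (h3 j i h1 (by omega)).symm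
    · rw [h, alt_three, alt_three]
      exact h3 i j h1 (by omega)
    · rw [h, Art.alt_two, Art.alt_two]
      exact h2 i j h0 (by omega)

theorem A_braid {n : ℕ} {i j : Fin n} (h : i.1 + 1 = j.1 ∨ j.1 + 1 = i.1) :
    gen (CoxeterMatrix.A n) i * gen _ j * gen _ i = gen _ j * gen _ i * gen _ j := by
  have h1 := Art.relHolds (CoxeterMatrix.A n) i j (by rw [A_adj h]; norm_num)
  rwa [A_adj h, alt_three, alt_three] at h1

theorem A_comm {n : ℕ} {i j : Fin n} (h0 : i ≠ j) (h : ¬ (i.1 + 1 = j.1 ∨ j.1 + 1 = i.1)) :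
    gen (CoxeterMatrix.A n) i * gen _ j = gen _ j * gen _ i := by
  have h1 := Art.relHolds (CoxeterMatrix.A n) i j (by rw [A_far h0 h]; norm_num)
  rwa [A_far h0 h, Art.alt_two, Art.alt_two] at h1

/-- Type `B` inside type `A`. -/
theorem exists_j (m : ℕ) :
    ∃ j : Gp (CoxeterMatrix.B (m + 1)) →* Gp (CoxeterMatrix.A (m + 1)),
      ∀ i : Fin (m + 1), j (gen _ i) = if i.1 + 1 = m + 1 then gen _ i ^ 2 else gen _ i := by
  refine lift_B _ (fun i j h h' => ?_) (fun i j h h' => ?_) (fun i j h0 h => ?_)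
  · rw [if_neg (by omega), if_pos (by omega)]
    have h1 := A_braid (n := m + 1) (i := i) (j := j) (Or.inl h)
    generalize gen (CoxeterMatrix.A (m + 1)) i = g at h1 ⊢
    generalize gen (CoxeterMatrix.A (m + 1)) j = k at h1 ⊢
    have h2 : (g * k * k * g) * k = k * (g * k * k * g) := by
      calc (g * k * k * g) * k = g * k * (k * g * k) := by group
        _ = g * k * (g * k * g) := by rw [← h1]
        _ = (g * k * g) * k * g := by group
        _ = (k * g * k) * k * g := by rw [h1]
        _ = k * (g * k * k * g) := by group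
    calc g * k ^ 2 * g * k ^ 2 = (g * k * k * g) * k * k := by simp only [pow_two, mul_assoc]
      _ = k * (g * k * k * g) * k := by rw [h2]
      _ = k * ((g * k * k * g) * k) := by group
      _ = k * (k * (g * k * k * g)) := by rw [h2]
      _ = k ^ 2 * g * k ^ 2 * g := by simp only [pow_two, mul_assoc]
  · rw [if_neg (by omega), if_neg (by omega)]
    exact A_braid (Or.inl h)
  · have h1 : Commute (gen (CoxeterMatrix.A (m + 1)) i) (gen _ j) := A_comm h0 h
    split_ifs
    · exact (h1.pow_pow 2 2)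
    · exact (h1.pow_left 2)
    · exact (h1.pow_right 2)
    · exact h1

/-- The image of type `B` fixes the last point. -/
theorem fix_last {m : ℕ} (j : Gp (CoxeterMatrix.B (m + 1)) →* Gp (CoxeterMatrix.A (m + 1)))
    (hj : ∀ i : Fin (m + 1), j (gen _ i) = if i.1 + 1 = m + 1 then gen _ i ^ 2 else gen _ i)
    (q : Gp (CoxeterMatrix.A (m + 1)) →* Equiv.Perm (Fin (m + 1 + 1)))
    (hq : ∀ i, q (gen _ i) = Equiv.swap i.castSucc i.succ) (a : Gp (CoxeterMatrix.B (m + 1))) :
    q (j a) (Fin.last (m + 1)) = Fin.last (m + 1) := by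
  have h1 : (⊤ : Subgroup (Gp (CoxeterMatrix.B (m + 1)))) ≤
      (MulAction.stabilizer (Equiv.Perm (Fin (m + 1 + 1))) (Fin.last (m + 1))).comap (q.comp j) := by
    rw [← Art.closure_gen, Subgroup.closure_le]
    rintro _ ⟨i, rfl⟩
    show q (j (gen _ i)) (Fin.last (m + 1)) = Fin.last (m + 1)
    rw [hj]
    split_ifs with h
    · rw [map_pow, hq, pow_two, Equiv.swap_mul_self]
      rfl
    · rw [hq]
      refine Equiv.swap_apply_of_ne_of_ne (fun h' => ?_) (fun h' => ?_)
      · have := congrArg Fin.val h'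
        simp at this
        omega
      · have := congrArg Fin.val h'
        simp at this
        omega
  exact h1 (Subgroup.mem_top a)

end Unf.H50
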