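import Pool.Agent.Helper12_UNF.Stmts2

set_option autoImplicit false

/-!
# Squad UNF: preparations for the modules DTA and DTB
-/

namespace Unf.H50

open Art

/-- Numbering of a finite type which extends a given numbering of a path. -/
theorem exists_num {X : Type} [Finite X] {n : ℕ} (z : Fin n → X) (hz : Function.Injective z) :
    ∃ (N : ℕ) (hn : n ≤ N) (e : X ≃ Fin N), ∀ i, e (z i) = Fin.castLE hn i := by
  classical
  have := Fintype.ofFinite X
  have hn : n ≤ Fintype.card X := by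
    simpa using Fintype.card_le_of_injective z hz
  let e0 : X ≃ Fin (Fintype.card X) := Fintype.equivFin X
  let f : Fin n → Fin (Fintype.card X) := fun i => e0 (z i)
  have hf : Function.Injective f := e0.injective.comp hz
  let g : Fin n → Fin (Fintype.card X) := fun i => Fin.castLE hn i
  have hg : Function.Injective g := Fin.castLE_injective hn
  let E : {x // x ∈ Set.range f} ≃ {x // x ∈ Set.range g} :=
    (Equiv.ofInjective f hf).symm.trans (Equiv.ofInjective g hg)
  refine ⟨Fintype.card X, hn, e0.trans E.extendSubtype, fun i => ?_⟩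
  have h1 : e0 (z i) ∈ Set.range f := ⟨i, rfl⟩
  rw [Equiv.trans_apply, Equiv.extendSubtype_apply_of_mem E _ h1]
  show (Equiv.ofInjective g hg ((Equiv.ofInjective f hf).symm ⟨f i, h1⟩) : Fin (Fintype.card X)) = _
  rw [Equiv.ofInjective_symm_apply]
  rfl

/-- A common multiple of all the numbers `M s t - 1`, divisible by `6`. -/
theorem exists_K {S : Type} [Finite S] (M : CoxeterMatrix S) :
    ∃ K : ℕ, 0 < K ∧ 6 ∣ K ∧ ∀ s t, s ≠ t → M.M s t ≠ 0 → (M.M s t - 1) ∣ K := by
  classical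
  have := Fintype.ofFinite S
  let f : S × S → ℕ := fun x => if M.M x.1 x.2 - 1 = 0 then 1 else M.M x.1 x.2 - 1
  refine ⟨6 * ∏ x, f x, ?_, Dvd.intro _ rfl, fun s t hst h0 => ?_⟩
  · refine Nat.mul_pos (by norm_num) (Finset.prod_pos fun x _ => ?_)
    show 0 < if _ then _ else _
    split_ifs with h
    · norm_num
    · omega
  · have h1 : M.M s t ≠ 1 := M.off_diagonal s t hst
    have h2 : f (s, t) = M.M s t - 1 := if_neg (by show ¬ M.M s t - 1 = 0; omega)
    rw [← h2]
    exact (Finset.dvd_prod_of_mem f (Finset.mem_univ _)).trans (Dvd.intro_left _ rfl)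

theorem Adj.symm' {S : Type} {M : CoxeterMatrix S} {K : ℕ} {x y : S × Fin K} (h : Adj M K x y) :
    Adj M K y x := by
  obtain ⟨h1, h2, h3, h4⟩ := h
  have hs : M.M y.1 x.1 = M.M x.1 y.1 := M.symmetric _ _
  refine ⟨h1.symm, ?_, h3.symm, ?_⟩
  · rw [hs]; exact h2
  · rw [hs]; exact h4.symm

theorem Adj.irr {S : Type} {M : CoxeterMatrix S} {K : ℕ} (x : S × Fin K) : ¬ Adj M K x x :=
  fun h => h.1 rfl

theorem A_diag {n : ℕ} (i : Fin n) : (CoxeterMatrix.A n).M i i = 1 := (CoxeterMatrix.A n).diagonal i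

theorem A_adj {n : ℕ} {i j : Fin n} (h : i.1 + 1 = j.1 ∨ j.1 + 1 = i.1) :
    (CoxeterMatrix.A n).M i j = 3 := by
  have h0 : i ≠ j := by rintro rfl; omega
  show (if i = j then 1 else (if (j : ℕ) + 1 = i ∨ (i : ℕ) + 1 = j then 3 else 2)) = 3
  rw [if_neg h0, if_pos h.symm]

theorem A_far {n : ℕ} {i j : Fin n} (h0 : i ≠ j) (h : ¬ (i.1 + 1 = j.1 ∨ j.1 + 1 = i.1)) :
    (CoxeterMatrix.A n).M i j = 2 := by
  show (if i = j then 1 else (if (j : ℕ) + 1 = i ∨ (i : ℕ) + 1 = j then 3 else 2)) = 2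
  rw [if_neg h0, if_neg fun h' => h h'.symm]

theorem alt_three {G : Type} [Monoid G] (a b : G) : alt 3 a b = a * b * a := by
  simp [alt, List.range_succ, mul_assoc]

theorem lift_A {n : ℕ} {G : Type} [Group G] (f : Fin n → G)
    (h1 : ∀ i j : Fin n, i.1 + 1 = j.1 → f i * f j * f i = f j * f i * f j)
    (h2 : ∀ i j : Fin n, i ≠ j → ¬ (i.1 + 1 = j.1 ∨ j.1 + 1 = i.1) → f i * f j = f j * f i) :
    ∃ Φ : Gp (CoxeterMatrix.A n) →* G, ∀ i, Φ (gen _ i) = f i := by
  refine Art.lift _ f fun i j _ => ?_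
  by_cases h0 : i = j
  · rw [h0]
  · by_cases ha : i.1 + 1 = j.1 ∨ j.1 + 1 = i.1
    · rw [A_adj ha, alt_three, alt_three]
      rcases ha with ha | ha
      · exact h1 i j ha
      · exact (h1 j i ha).symm
    · rw [A_far h0 ha, Art.alt_two, Art.alt_two]
      exact h2 i j h0 ha

/-- The data of the twist action, for a path in the unfolded graph. -/
theorem data (htwi : TwiStmt) (hthk : ThkStmt) {S : Type} [Finite S] (M : CoxeterMatrix S)
    (K : ℕ) (hK : ∀ s t, s ≠ t → M.M s t ≠ 0 → (M.M s t - 1) ∣ K) (n : ℕ)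
    (z : Fin n → S × Fin K) (hz : Function.Injective z)
    (hpath : ∀ i j, Adj M K (z i) (z j) ↔ (i.1 + 1 = j.1 ∨ j.1 + 1 = i.1)) :
    ∃ (N : ℕ) (hn : n ≤ N) (e : S × Fin K ≃ Fin N) (T : Fin N → MulAut (FreeGroup (Xg N)))
      (θ : Gp M →* MulAut (FreeGroup (Xg N)))
      (Φ : Gp (CoxeterMatrix.A n) →* MulAut (FreeGroup (Xg N))),
      (∀ i, e (z i) = Fin.castLE hn i) ∧
      Tw (fun i j => Adj M K (e.symm i) (e.symm j)) T ∧
      (∀ i j, i ≠ j → ¬ Adj M K (e.symm i) (e.symm j) → T i * T j = T j * T i) ∧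
      (∀ s, θ (gen M s) = (List.ofFn (fun u : Fin K => T (e (s, u)))).prod) ∧
      PathAct N n hn (fun i j => Adj M K (e.symm i) (e.symm j)) T Φ := by
  obtain ⟨N, hn, e, he⟩ := exists_num z hz
  obtain ⟨T, hT, hb, hc⟩ := htwi N (fun i j => Adj M K (e.symm i) (e.symm j))
    (fun i => Adj.irr _) (fun i j h => Adj.symm' h)
  obtain ⟨θ, hθ⟩ := hthk M K hK (fun x => T (e x))
    (fun x y h => hb (e x) (e y) (by simpa using h))
    (fun x y hxy h => hc (e x) (e y) (fun h' => hxy (e.injective h')) (by simpa using h))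
  have hp : ∀ i j : Fin n, Adj M K (e.symm (Fin.castLE hn i)) (e.symm (Fin.castLE hn j)) ↔
      (i.1 + 1 = j.1 ∨ j.1 + 1 = i.1) := by
    intro i j
    rw [← he, ← he, Equiv.symm_apply_apply, Equiv.symm_apply_apply]
    exact hpath i j
  obtain ⟨Φ, hΦ⟩ := lift_A (fun i : Fin n => T (Fin.castLE hn i))
    (fun i j h => hb _ _ ((hp i j).2 (Or.inl h)))
    (fun i j h0 h => hc _ _ (fun h' => h0 (Fin.castLE_injective hn h')) (fun h' => h ((hp i j).1 h')))
  refine ⟨N, hn, e, T, θ, Φ, he, hT, hc, hθ, fun i => Adj.irr _, fun i j h => Adj.symm' h, hT,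
    fun i j hi hj => ?_, hΦ⟩
  exact hp ⟨i.1, hi⟩ ⟨j.1, hj⟩

/-! ### The elements `pre` -/

theorem pre_mul (k i j : ℕ) (hij : i ≤ j) :
    (pre k i)⁻¹ * pre k j ∈ Subgroup.closure {y : O k | ∃ l : Fin k, i ≤ l.1 ∧ l.1 < j ∧ y = ox l} := by
  have h1 : (List.finRange k).take j = (List.finRange k).take i ++
      ((List.finRange k).drop i).take (j - i) := by
    have : j = i + (j - i) := by omega
    conv_lhs => rw [this]
    rw [List.take_add]
  unfold pre wp
  rw [h1, List.map_append, List.prod_append, inv_mul_cancel_left]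
  refine Subgroup.list_prod_mem _ fun y hy => ?_
  rw [List.mem_map] at hy
  obtain ⟨l, hl, rfl⟩ := hy
  rw [List.mem_iff_getElem] at hl
  obtain ⟨m, hm, rfl⟩ := hl
  rw [List.length_take, List.length_drop, List.length_finRange] at hm
  refine Subgroup.subset_closure ⟨_, ?_, ?_, rfl⟩
  · rw [List.getElem_take, List.getElem_drop, List.getElem_finRange]
    simp
  · rw [List.getElem_take, List.getElem_drop, List.getElem_finRange]
    simp only [Fin.val_cast]
    omega

theorem P_mono {S : Type} (M : CoxeterMatrix S) {D E : Set S} (h : D ⊆ E) : P M D ≤ P M E :=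
  Subgroup.closure_mono (Set.image_mono h)

/-- Homomorphisms which map generators to generators. -/
theorem map_P {S J : Type} {M : CoxeterMatrix S} {W : CoxeterMatrix J} (κ : Gp W →* Gp M)
    (r : J → S) (hκ : ∀ j, κ (gen W j) = gen M (r j)) (D : Set J) (E : Set S)
    (h : ∀ j ∈ D, r j ∈ E) {a : Gp W} (ha : a ∈ P W D) : κ a ∈ P M E := by
  have h1 : P W D ≤ (P M E).comap κ := by
    unfold P
    rw [Subgroup.closure_le]
    rintro _ ⟨j, hj, rfl⟩
    show κ (gen W j) ∈ P M E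
    rw [hκ]
    exact Subgroup.subset_closure ⟨r j, h j hj, rfl⟩
  exact h1 ha

theorem surj_P {S J : Type} {M : CoxeterMatrix S} {W : CoxeterMatrix J} (κ : Gp W →* Gp M)
    (r : J → S) (hκ : ∀ j, κ (gen W j) = gen M (r j)) (C : Set S) (h : ∀ s ∈ C, ∃ j, r j = s)
    {a : Gp M} (ha : a ∈ P M C) : ∃ b, κ b = a := by
  have h1 : P M C ≤ κ.range := by
    unfold P
    rw [Subgroup.closure_le]
    rintro _ ⟨s, hs, rfl⟩
    obtain ⟨j, rfl⟩ := h s hs
    exact ⟨gen W j, hκ j⟩
  exact h1 ha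

end Unf.H50
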